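import Mathlib
import Pool.Agent.Y248.FB.Stm
set_option autoImplicit false

/-! # Project FB, part SM: measures of dimension `α`, kernels, duality -/

namespace Pool.Agent.Y948.FB

open MeasureTheory Set Metric Complex Filter
open scoped ENNReal RealInnerProductSpace Topology FourierTransform
open Pool.Agent.H789R2.FR (E)
open Pool.Agent.H438R2.RZ (Bump)
open Pool.Agent.Y248.BA
open Pool.Agent.Y248.FB

variable {n : ℕ}

theorem dim_lt {α : ℝ} {μ : Measure (E n)} (h : Dim α μ) (x : E n) (r : ℝ) :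
    μ (closedBall x r) < ∞ :=
  (measure_mono (closedBall_subset_closedBall (le_max_left r 1))).trans_lt
    ((h x (max r 1) (le_max_right _ _)).trans_lt ENNReal.ofReal_lt_top)

/-- pointwise domination by dyadic balls -/
theorem dyad {α : ℝ} (hα : 0 ≤ α) (K : ℕ) {t : ℝ} (ht0 : 0 ≤ t) (ht : t ≤ 2 ^ K) :
    ∃ j ∈ Finset.range (K + 1), t ≤ 2 ^ j ∧ (1 + t) ^ (-α) ≤ 2 ^ α * ((2 : ℝ) ^ j) ^ (-α) := by
  classical
  have hex : ∃ j : ℕ, t ≤ 2 ^ j := ⟨K, ht⟩
  set j := Nat.find hex with hj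
  have hj1 : t ≤ 2 ^ j := Nat.find_spec hex
  have hjK : j ≤ K := Nat.find_min' hex ht
  refine ⟨j, Finset.mem_range.2 (by omega), hj1, ?_⟩
  rcases Nat.eq_zero_or_pos j with h0 | h0
  · rw [h0, pow_zero, Real.one_rpow, mul_one]
    have h1 : (1 + t) ^ (-α) ≤ 1 := Real.rpow_le_one_of_one_le_of_nonpos (by linarith) (by linarith)
    have h2 : (1 : ℝ) ≤ 2 ^ α := Real.one_le_rpow (by norm_num) hα
    linarith
  · have h1 : ¬ t ≤ 2 ^ (j - 1) := Nat.find_min hex (by omega)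
    push Not at h1
    have h2 : (2 : ℝ) ^ j / 2 ≤ 1 + t := by
      have : (2 : ℝ) ^ j = 2 * 2 ^ (j - 1) := by
        rw [← pow_succ']; congr 1; omega
      rw [this]; linarith
    have h3 : (0 : ℝ) < 2 ^ j / 2 := by positivity
    calc (1 + t) ^ (-α) ≤ ((2 : ℝ) ^ j / 2) ^ (-α) :=
          Real.rpow_le_rpow_of_nonpos h3 h2 (by linarith)
      _ = 2 ^ α * ((2 : ℝ) ^ j) ^ (-α) := by
        rw [Real.div_rpow (by positivity) (by norm_num), Real.rpow_neg (by norm_num : (0:ℝ) ≤ 2)]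
        rw [div_inv_eq_mul, mul_comm]

theorem dim_sum {α : ℝ} (hα : 0 ≤ α) {μ : Measure (E n)} (h : Dim α μ) (K : ℕ) (y : E n) :
    ∫⁻ x in closedBall y (2 ^ K), ENNReal.ofReal ((1 + ‖x - y‖) ^ (-α)) ∂μ ≤
      ENNReal.ofReal (2 ^ α * (K + 1)) := by
  have h1 : ∀ x ∈ closedBall y (2 ^ K), ENNReal.ofReal ((1 + ‖x - y‖) ^ (-α)) ≤
      ∑ j ∈ Finset.range (K + 1), (closedBall y ((2 : ℝ) ^ j)).indicator
        (fun _ => ENNReal.ofReal (2 ^ α * ((2 : ℝ) ^ j) ^ (-α))) x := by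
    intro x hx
    have hx' : ‖x - y‖ ≤ 2 ^ K := by rw [← dist_eq_norm]; exact hx
    obtain ⟨j, hj, h2, h3⟩ := dyad hα K (norm_nonneg (x - y)) hx'
    refine (ENNReal.ofReal_le_ofReal h3).trans ?_
    have h4 : x ∈ closedBall y ((2 : ℝ) ^ j) := by rw [mem_closedBall, dist_eq_norm]; exact h2
    have h5 := Finset.single_le_sum (f := fun j => (closedBall y ((2 : ℝ) ^ j)).indicator
        (fun _ => ENNReal.ofReal (2 ^ α * ((2 : ℝ) ^ j) ^ (-α))) x) (fun i _ => zero_le) hj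
    refine le_trans (le_of_eq ?_) h5
    simp only [indicator_of_mem h4]
  calc ∫⁻ x in closedBall y (2 ^ K), ENNReal.ofReal ((1 + ‖x - y‖) ^ (-α)) ∂μ
      ≤ ∫⁻ x in closedBall y (2 ^ K), ∑ j ∈ Finset.range (K + 1),
        (closedBall y ((2 : ℝ) ^ j)).indicator
        (fun _ => ENNReal.ofReal (2 ^ α * ((2 : ℝ) ^ j) ^ (-α))) x ∂μ :=
        setLIntegral_mono' isClosed_closedBall.measurableSet h1
    _ ≤ ∫⁻ x, ∑ j ∈ Finset.range (K + 1),
        (closedBall y ((2 : ℝ) ^ j)).indicator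
        (fun _ => ENNReal.ofReal (2 ^ α * ((2 : ℝ) ^ j) ^ (-α))) x ∂μ := setLIntegral_le_lintegral _ _
    _ = ∑ j ∈ Finset.range (K + 1), ENNReal.ofReal (2 ^ α * ((2 : ℝ) ^ j) ^ (-α)) *
        μ (closedBall y ((2 : ℝ) ^ j)) := by
        rw [lintegral_finsetSum _ fun j _ => measurable_const.indicator
          isClosed_closedBall.measurableSet]
        refine Finset.sum_congr rfl fun j _ => ?_
        rw [lintegral_indicator_const isClosed_closedBall.measurableSet]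
    _ ≤ ∑ j ∈ Finset.range (K + 1), ENNReal.ofReal (2 ^ α) := by
        refine Finset.sum_le_sum fun j _ => ?_
        refine (mul_le_mul_right (h y (2 ^ j) (one_le_pow₀ (by norm_num))) _).trans (le_of_eq ?_)
        rw [← ENNReal.ofReal_mul (by positivity), mul_assoc, ← Real.rpow_add (by positivity)]
        simp
    _ = ENNReal.ofReal (2 ^ α * (K + 1)) := by
        rw [Finset.sum_const, Finset.card_range, nsmul_eq_mul, mul_comm,
          ENNReal.ofReal_mul (by positivity)]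
        congr 1
        rw [← Nat.cast_succ, ENNReal.ofReal_natCast]

/-- the logarithmic sum, in terms of `ρ` -/
theorem dim_log {α ε : ℝ} (hα : 0 ≤ α) (hε : 0 < ε) : ∃ C : ℝ, 0 < C ∧ ∀ μ : Measure (E n),
    Dim α μ → ∀ (u y : E n) (ρ : ℝ), 1 ≤ ρ → y ∈ closedBall u (2 * ρ) →
    ∫⁻ x in closedBall u ρ, ENNReal.ofReal ((1 + ‖x - y‖) ^ (-α)) ∂μ ≤
      ENNReal.ofReal (C * ρ ^ ε) := by
  have hl2 : 0 < Real.log 2 := Real.log_pos (by norm_num)
  refine ⟨2 ^ α * (4 + 1 / (ε * Real.log 2)), by positivity, fun μ hμ u y ρ hρ hy => ?_⟩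
  have hρ0 : 0 < ρ := by linarith
  set K := ⌈Real.logb 2 (3 * ρ)⌉₊ with hK
  have hL0 : 0 ≤ Real.logb 2 (3 * ρ) := Real.logb_nonneg (by norm_num) (by linarith)
  have hK1 : Real.logb 2 (3 * ρ) ≤ K := Nat.le_ceil _
  have hK2 : (K : ℝ) < Real.logb 2 (3 * ρ) + 1 := Nat.ceil_lt_add_one hL0
  have hK3 : 3 * ρ ≤ 2 ^ K := by
    rw [← Real.rpow_natCast, ← Real.logb_le_iff_le_rpow (by norm_num) (by positivity)]
    exact hK1
  have hsub : closedBall u ρ ⊆ closedBall y (2 ^ K) := by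
    intro x hx
    rw [mem_closedBall] at hx hy ⊢
    have := dist_triangle x u y
    rw [dist_comm u y] at this
    linarith
  refine (lintegral_mono_set hsub).trans ((dim_sum hα hμ K y).trans ?_)
  refine ENNReal.ofReal_le_ofReal ?_
  rw [mul_assoc]
  refine mul_le_mul_of_nonneg_left ?_ (by positivity)
  have h1 : Real.logb 2 (3 * ρ) = Real.logb 2 3 + Real.logb 2 ρ :=
    Real.logb_mul (by norm_num) hρ0.ne'
  have h2 : Real.logb 2 3 ≤ 2 := by
    rw [Real.logb_le_iff_le_rpow (by norm_num) (by norm_num)]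
    norm_num
  have h3 : Real.logb 2 ρ ≤ 1 / (ε * Real.log 2) * ρ ^ ε := by
    have h4 := Real.log_le_rpow_div hρ0.le hε
    unfold Real.logb
    rw [div_le_iff₀ hl2]
    refine h4.trans (le_of_eq ?_)
    field_simp
  have h5 : 1 ≤ ρ ^ ε := Real.one_le_rpow hρ hε.le
  nlinarith

end Pool.Agent.Y948.FB
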