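import Mathlib
import Pool.Agent.Y948.FB.Sa
set_option autoImplicit false

/-! # Project FB, part SM: kernels and duality -/

namespace Pool.Agent.Y948.FB

open MeasureTheory Set Metric Complex Filter
open scoped ENNReal RealInnerProductSpace Topology FourierTransform
open Pool.Agent.H789R2.FR (E)
open Pool.Agent.H438R2.RZ (Bump)
open Pool.Agent.Y248.BA
open Pool.Agent.Y248.FB

variable {n : ℕ}

theorem mu_even (ψ : ℝ → ℝ) (A R : ℝ) (ξ : E n) : mu ψ A R (-ξ) = mu ψ A R ξ := by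
  unfold mu
  rw [norm_neg]

/-- the kernels are even -/
theorem Kr_even (ψ : ℝ → ℝ) (A R : ℝ) (w : E n) : Kr ψ A R (-w) = Kr ψ A R w := by
  unfold Kr
  rw [four_eq, four_eq, ← integral_neg_eq_self]
  congr 1; funext x
  rw [inner_neg_neg, mu_even]

theorem mu_joint {ψ : ℝ → ℝ} (hψ : Bump ψ) (A : ℝ) {R : E n → ℝ} (hR : Measurable R) :
    Measurable fun z : E n × E n => mu ψ A (R z.1) z.2 := by
  unfold mu
  refine Complex.measurable_ofReal.comp (hψ.1.continuous.measurable.comp ?_)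
  refine measurable_const.mul (measurable_const.sub (Measurable.mul ?_ ?_))
  · exact ((hR.comp measurable_fst).pow_const 2).inv
  · exact (measurable_snd.norm).pow_const 2

theorem mu_joint' {ψ : ℝ → ℝ} (hψ : Bump ψ) (A : ℝ) {R : E n → ℝ} (hR : Measurable R) :
    Measurable fun z : E n × E n => mu ψ A (R z.2) z.1 := by
  unfold mu
  refine Complex.measurable_ofReal.comp (hψ.1.continuous.measurable.comp ?_)
  refine measurable_const.mul (measurable_const.sub (Measurable.mul ?_ ?_))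
  · exact ((hR.comp measurable_snd).pow_const 2).inv
  · exact (measurable_fst.norm).pow_const 2

theorem Kr_joint {ψ : ℝ → ℝ} (hψ : Bump ψ) (A : ℝ) {R : E n → ℝ} (hR : Measurable R) :
    Measurable fun z : E n × E n => Kr ψ A (R z.1) (z.1 - z.2) := by
  have h1 : StronglyMeasurable fun p : (E n × E n) × E n =>
      cexp (((-2 * Real.pi * ⟪p.2, p.1.1 - p.1.2⟫ : ℝ) : ℂ) * I) * mu ψ A (R p.1.1) p.2 := by
    refine Measurable.stronglyMeasurable (Measurable.mul ?_ ?_)
    · exact (by fun_prop : Continuous fun p : (E n × E n) × E n =>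
        cexp (((-2 * Real.pi * ⟪p.2, p.1.1 - p.1.2⟫ : ℝ) : ℂ) * I)).measurable
    · exact (mu_joint hψ A hR).comp
        ((measurable_fst.comp measurable_fst).prodMk measurable_snd)
  have h2 := h1.integral_prod_right' (ν := (volume : Measure (E n)))
  have e : (fun z : E n × E n => Kr ψ A (R z.1) (z.1 - z.2)) = fun z : E n × E n =>
      ∫ ξ : E n, cexp (((-2 * Real.pi * ⟪ξ, z.1 - z.2⟫ : ℝ) : ℂ) * I) * mu ψ A (R z.1) ξ := by
    funext z
    unfold Kr
    rw [four_eq]
  rw [e]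
  exact h2.measurable

theorem F_meas {ψ : ℝ → ℝ} (hψ : Bump ψ) (A : ℝ) {R : E n → ℝ} (hR : Measurable R)
    {f : E n → ℂ} (hf : Measurable f) : Measurable fun x => Tp ψ A (R x) f x := by
  have h1 : StronglyMeasurable fun z : E n × E n => Kr ψ A (R z.1) (z.1 - z.2) * f z.2 :=
    ((Kr_joint hψ A hR).mul (hf.comp measurable_snd)).stronglyMeasurable
  exact (h1.integral_prod_right' (ν := (volume : Measure (E n)))).measurable

theorem Hd_restrict {ψ : ℝ → ℝ} {A : ℝ} {R : E n → ℝ} {g : E n → ℂ} {B : Set (E n)}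
    (hg : ∀ x, x ∉ B → g x = 0) (μ : Measure (E n)) :
    Hd ψ A R g (μ.restrict B) = Hd ψ A R g μ := by
  funext ξ
  unfold Hd
  refine setIntegral_eq_integral_of_forall_compl_eq_zero fun x hx => ?_
  rw [hg x hx, mul_zero, zero_mul]

theorem Hd_meas {ψ : ℝ → ℝ} (hψ : Bump ψ) (A : ℝ) {R : E n → ℝ} (hR : Measurable R) {g : E n → ℂ}
    (hg : Measurable g) (ν : Measure (E n)) [IsFiniteMeasure ν] : Measurable (Hd ψ A R g ν) := by
  have h1 : StronglyMeasurable fun p : E n × E n => mu ψ A (R p.2) p.1 * g p.2 *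
      cexp (((2 * Real.pi * ⟪p.2, p.1⟫ : ℝ) : ℂ) * I) := by
    refine Measurable.stronglyMeasurable (Measurable.mul (Measurable.mul ?_ ?_) ?_)
    · exact mu_joint' hψ A hR
    · exact hg.comp measurable_snd
    · exact (by fun_prop : Continuous fun p : E n × E n =>
        cexp (((2 * Real.pi * ⟪p.2, p.1⟫ : ℝ) : ℂ) * I)).measurable
  exact (h1.integral_prod_right' (ν := ν)).measurable

theorem Hd_far {ψ : ℝ → ℝ} (hψ : Bump ψ) {A : ℝ} (hA : 0 < A) {R : E n → ℝ} (hR : Radii R)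
    (g : E n → ℂ) (ν : Measure (E n)) (ξ : E n) (hξ : ξ ∉ closedBall (0 : E n) 2) :
    Hd ψ A R g ν ξ = 0 := by
  unfold Hd
  rw [mem_closedBall_zero_iff] at hξ
  push Not at hξ
  have : ∀ x, mu ψ A (R x) ξ * g x * cexp (((2 * Real.pi * ⟪x, ξ⟫ : ℝ) : ℂ) * I) = 0 := by
    intro x
    rw [mu_far hψ hA (by linarith [(hR.2 x).1]) ξ (by linarith [(hR.2 x).2]), zero_mul, zero_mul]
  simp only [this, integral_zero]

/-- bounded measurable functions are integrable for finite measures -/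
theorem bdd_int {ν : Measure (E n)} [IsFiniteMeasure ν] {g : E n → ℂ} (hg : Measurable g) {M : ℝ}
    (hM : ∀ x, ‖g x‖ ≤ M) : Integrable g ν :=
  Integrable.of_bound hg.aestronglyMeasurable M (Eventually.of_forall hM)

theorem four_Hd {ψ : ℝ → ℝ} (hψ : Bump ψ) {A : ℝ} (hA : 0 < A) {R : E n → ℝ} (hR : Radii R)
    {g : E n → ℂ} (hg : Measurable g) {Mg : ℝ} (hMg : ∀ x, ‖g x‖ ≤ Mg) (ν : Measure (E n))
    [IsFiniteMeasure ν] (y : E n) :
    𝓕 (Hd ψ A R g ν) y = ∫ x, Kr ψ A (R x) (x - y) * g x ∂ν := by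
  obtain ⟨M, hM0, hM⟩ := mu_bdd hψ
  have hgi := bdd_int (ν := ν) hg hMg
  have hprod : Integrable (fun z : E n × E n =>
      cexp (((-2 * Real.pi * ⟪z.1, y⟫ : ℝ) : ℂ) * I) * (mu ψ A (R z.2) z.1 * g z.2 *
      cexp (((2 * Real.pi * ⟪z.2, z.1⟫ : ℝ) : ℂ) * I))) ((volume : Measure (E n)).prod ν) := by
    have hb : Integrable (fun ξ : E n => (closedBall (0 : E n) 2).indicator (fun _ => M) ξ) := by
      rw [integrable_indicator_iff isClosed_closedBall.measurableSet]
      exact integrableOn_const measure_closedBall_lt_top.ne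
    have h1 := hb.mul_prod hgi.norm
    refine h1.mono' ?_ (Eventually.of_forall fun z => ?_)
    · refine Measurable.aestronglyMeasurable (Measurable.mul ?_ (Measurable.mul
        (Measurable.mul ?_ ?_) ?_))
      · exact (by fun_prop : Continuous fun z : E n × E n =>
          cexp (((-2 * Real.pi * ⟪z.1, y⟫ : ℝ) : ℂ) * I)).measurable
      · exact mu_joint' hψ A hR.1
      · exact hg.comp measurable_snd
      · exact (by fun_prop : Continuous fun p : E n × E n =>
          cexp (((2 * Real.pi * ⟪p.2, p.1⟫ : ℝ) : ℂ) * I)).measurable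
    · rw [norm_mul, norm_mul, norm_mul, Complex.norm_exp_ofReal_mul_I,
        Complex.norm_exp_ofReal_mul_I, one_mul, mul_one]
      refine mul_le_mul_of_nonneg_right ?_ (norm_nonneg _)
      by_cases hz : z.1 ∈ closedBall (0 : E n) 2
      · rw [indicator_of_mem hz]; exact hM _ _ _ _
      · rw [indicator_of_notMem hz]
        rw [mem_closedBall_zero_iff] at hz
        push Not at hz
        rw [mu_far hψ hA (by linarith [(hR.2 z.2).1]) z.1 (by linarith [(hR.2 z.2).2]), norm_zero]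
  have e1 : 𝓕 (Hd ψ A R g ν) y = ∫ ξ : E n, ∫ x, cexp (((-2 * Real.pi * ⟪ξ, y⟫ : ℝ) : ℂ) * I) *
      (mu ψ A (R x) ξ * g x * cexp (((2 * Real.pi * ⟪x, ξ⟫ : ℝ) : ℂ) * I)) ∂ν := by
    rw [four_eq]
    congr 1; funext ξ
    unfold Hd
    rw [integral_const_mul]
  rw [e1, integral_integral_swap hprod]
  congr 1; funext x
  rw [← Kr_even]
  unfold Kr
  rw [four_eq, ← integral_mul_const]
  congr 1; funext ξ
  have e3 : (((-2 * Real.pi * ⟪ξ, -(x - y)⟫ : ℝ) : ℂ) * I) =
      (((-2 * Real.pi * ⟪ξ, y⟫ : ℝ) : ℂ) * I) + (((2 * Real.pi * ⟪x, ξ⟫ : ℝ) : ℂ) * I) := by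
    rw [inner_neg_right, inner_sub_right, real_inner_comm ξ x]
    push_cast; ring
  rw [e3, Complex.exp_add]
  ring

/-- the duality -/
theorem dual {ψ : ℝ → ℝ} (hψ : Bump ψ) {A κ : ℝ} {R : E n → ℝ} (hR : Radii R)
    (hκ : ∀ x w : E n, ‖Kr ψ A (R x) w‖ ≤ κ) {f g : E n → ℂ} (hf : Integrable f)
    (hfm : Measurable f)
    (hg : Measurable g) {Mg : ℝ} (hMg : ∀ x, ‖g x‖ ≤ Mg) (ν : Measure (E n)) [IsFiniteMeasure ν] :
    ∫ x, Tp ψ A (R x) f x * g x ∂ν = ∫ y, f y * ∫ x, Kr ψ A (R x) (x - y) * g x ∂ν := by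
  have hgi := bdd_int (ν := ν) hg hMg
  have hprod : Integrable (fun z : E n × E n => Kr ψ A (R z.1) (z.1 - z.2) * f z.2 * g z.1)
      (ν.prod (volume : Measure (E n))) := by
    have h1 := (hgi.norm.const_mul κ).mul_prod hf.norm
    refine h1.mono' ?_ (Eventually.of_forall fun z => ?_)
    · exact (((Kr_joint hψ A hR.1).mul (hfm.comp measurable_snd)).mul
        (hg.comp measurable_fst)).aestronglyMeasurable
    · rw [norm_mul, norm_mul]
      have := hκ z.1 (z.1 - z.2)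
      calc ‖Kr ψ A (R z.1) (z.1 - z.2)‖ * ‖f z.2‖ * ‖g z.1‖ ≤ κ * ‖f z.2‖ * ‖g z.1‖ := by gcongr
        _ = κ * ‖g z.1‖ * ‖f z.2‖ := by ring
  have e1 : ∀ x, Tp ψ A (R x) f x * g x = ∫ y, Kr ψ A (R x) (x - y) * f y * g x := by
    intro x
    unfold Tp
    rw [integral_mul_const]
  simp only [e1]
  rw [integral_integral_swap hprod]
  congr 1; funext y
  rw [← integral_const_mul]
  congr 1; funext x
  ring

end Pool.Agent.Y948.FB
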