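import Mathlib
import Pool.Agent.Y948.FB.Sb
set_option autoImplicit false

/-! # Project FB, part SM: the case `1 < p < 2` on balls -/

namespace Pool.Agent.Y948.FB

open MeasureTheory Set Metric Complex Filter
open scoped ENNReal RealInnerProductSpace Topology FourierTransform
open Pool.Agent.H789R2.FR (E)
open Pool.Agent.H438R2.RZ (Bump)
open Pool.Agent.Y248.BA
open Pool.Agent.Y248.FB

variable {n : ℕ}

/-- the numerical inequality at the end -/
theorem fin_num {CK CL CE A ρ α κ p ε : ℝ} (hCK : 0 < CK) (hCL : 0 < CL) (hCE : 0 < CE)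
    (hA : 0 < A) (hρ : 1 ≤ ρ) (hp1 : 1 < p) (hp2 : p < 2) (hε : 0 < ε) :
    (ρ ^ α) ^ (1 - p / 2) * (((CK / A) ^ 2 * (CL * ρ ^ ε)) ^ ((2 - p) / 2) *
      (CE / A * ρ ^ (α - κ + ε)) ^ (p - 1)) ≤
    CK ^ (2 - p) * CL ^ ((2 - p) / 2) * CE ^ (p - 1) * A ^ (-(1 : ℝ)) *
      ρ ^ (α * (1 - p / 2) + (α - κ) * (p - 1) + ε) := by
  have hρ0 : 0 < ρ := by linarith
  have e1 : ((CK / A) ^ 2) ^ ((2 - p) / 2) = CK ^ (2 - p) * A ^ (-(2 - p)) := by
    rw [← Real.rpow_natCast, ← Real.rpow_mul (by positivity), Real.div_rpow hCK.le hA.le,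
      Real.rpow_neg hA.le, div_eq_mul_inv]
    have : ((2 : ℕ) : ℝ) * ((2 - p) / 2) = 2 - p := by push_cast; ring
    rw [this]
  have e2 : (CE / A) ^ (p - 1) = CE ^ (p - 1) * A ^ (-(p - 1)) := by
    rw [Real.div_rpow hCE.le hA.le, Real.rpow_neg hA.le, div_eq_mul_inv]
  have e3 : A ^ (-(2 - p)) * A ^ (-(p - 1)) = A ^ (-(1 : ℝ)) := by
    rw [← Real.rpow_add hA]; congr 1; ring
  rw [Real.mul_rpow (by positivity) (by positivity), Real.mul_rpow hCL.le (by positivity),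
    Real.mul_rpow (by positivity) (by positivity), e1, e2, ← Real.rpow_mul hρ0.le,
    ← Real.rpow_mul hρ0.le, ← Real.rpow_mul hρ0.le]
  have e4 : ρ ^ (α * (1 - p / 2)) * (ρ ^ (ε * ((2 - p) / 2)) * ρ ^ ((α - κ + ε) * (p - 1))) ≤
      ρ ^ (α * (1 - p / 2) + (α - κ) * (p - 1) + ε) := by
    rw [← Real.rpow_add hρ0, ← Real.rpow_add hρ0]
    refine Real.rpow_le_rpow_of_exponent_le hρ ?_
    nlinarith
  calc ρ ^ (α * (1 - p / 2)) * (CK ^ (2 - p) * A ^ (-(2 - p)) * (CL ^ ((2 - p) / 2) *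
        ρ ^ (ε * ((2 - p) / 2))) * (CE ^ (p - 1) * A ^ (-(p - 1)) * ρ ^ ((α - κ + ε) * (p - 1))))
      = CK ^ (2 - p) * CL ^ ((2 - p) / 2) * CE ^ (p - 1) * (A ^ (-(2 - p)) * A ^ (-(p - 1))) *
        (ρ ^ (α * (1 - p / 2)) * (ρ ^ (ε * ((2 - p) / 2)) * ρ ^ ((α - κ + ε) * (p - 1)))) := by
        ring
    _ ≤ _ := by
        rw [e3]
        gcongr

/-- the algebra with powers -/
theorem fin_alg {G P a b : ℝ≥0∞} (hG : G ≠ ∞) {p : ℝ} (hp1 : 1 < p) (hp2 : p < 2)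
    (h : G ≤ P ^ (1 / p) * ((a * G) ^ ((p / (p - 1) - 2) / 2) * (b * G)) ^ (1 / (p / (p - 1)))) :
    G ^ (p / 2) ≤ P * (a ^ ((2 - p) / 2) * b ^ (p - 1)) := by
  have hp0 : 0 < p := by linarith
  have hp1' : 0 < p - 1 := by linarith
  have hq : p / (p - 1) - 2 = (2 - p) / (p - 1) := by field_simp; ring
  have hq0 : 0 ≤ (p / (p - 1) - 2) / 2 := by
    rw [hq]
    have h2 : 0 ≤ (2 - p) / (p - 1) := div_nonneg (by linarith) hp1'.le
    linarith
  rcases eq_or_ne G 0 with h0 | h0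
  · rw [h0, ENNReal.zero_rpow_of_pos (by positivity)]; exact zero_le
  have h1 := ENNReal.rpow_le_rpow h hp0.le
  have e1 : (P ^ (1 / p) * ((a * G) ^ ((p / (p - 1) - 2) / 2) * (b * G)) ^ (1 / (p / (p - 1)))) ^ p
      = P * (a ^ ((2 - p) / 2) * b ^ (p - 1)) * G ^ (p / 2) := by
    rw [ENNReal.mul_rpow_of_nonneg _ _ hp0.le, ← ENNReal.rpow_mul, one_div,
      inv_mul_cancel₀ hp0.ne', ENNReal.rpow_one, ← ENNReal.rpow_mul]
    have e2 : 1 / (p / (p - 1)) * p = p - 1 := by field_simp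
    rw [e2, ENNReal.mul_rpow_of_nonneg _ _ hp1'.le, ← ENNReal.rpow_mul,
      ENNReal.mul_rpow_of_nonneg _ _ hp1'.le]
    have e3 : (p / (p - 1) - 2) / 2 * (p - 1) = (2 - p) / 2 := by
      rw [hq]; field_simp
    rw [e3, ENNReal.mul_rpow_of_nonneg _ _ (by linarith)]
    have e4 : G ^ (p / 2) = G ^ ((2 - p) / 2) * G ^ (p - 1) := by
      rw [← ENNReal.rpow_add _ _ h0 hG]; congr 1; ring
    rw [e4]; ring
  rw [e1] at h1
  have e5 : G ^ p = G ^ (p / 2) * G ^ (p / 2) := by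
    rw [← ENNReal.rpow_add _ _ h0 hG]; congr 1; ring
  rw [e5] at h1
  have hne : G ^ (p / 2) ≠ 0 := by
    rw [Ne, ENNReal.rpow_eq_zero_iff]; push Not
    exact ⟨fun h => absurd h h0, fun h => absurd h hG⟩
  have hnt : G ^ (p / 2) ≠ ∞ := ENNReal.rpow_ne_top_of_nonneg (by positivity) hG
  exact (ENNReal.mul_le_mul_iff_left hne hnt).1 h1

theorem t_sm (n : ℕ) (hn : 2 ≤ n) : S_KK n → S_EN n → S_SM n := by
  intro hKK hEN ψ hψ α p ε hα1 hα2 hp1 hp2 hε
  obtain ⟨CK, hCK, hK⟩ := hKK ψ hψ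
  have hn2 : (2 : ℝ) ≤ n := by exact_mod_cast hn
  have hkap : 0 ≤ kap n := by unfold kap; linarith
  have hα : 0 ≤ α := hkap.trans hα1
  obtain ⟨CE, hCE, hE⟩ := hEN ψ hψ α 2 ε hα le_rfl hε
  obtain ⟨CL, hCL, hL⟩ := dim_log (n := n) hα hε
  refine ⟨CK ^ (2 - p) * CL ^ ((2 - p) / 2) * CE ^ (p - 1), by positivity,
    fun μ hμ A hA R hR u ρ hρ f hf hfs hfp => ?_⟩
  have hA0 : 0 < A := by linarith
  have hρ0 : 0 < ρ := by linarith
  have hp0 : 0 < p := by linarith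
  set B := closedBall u ρ with hB
  have hBm : MeasurableSet B := isClosed_closedBall.measurableSet
  set B2 := closedBall u (2 * ρ) with hB2
  have hB2m : MeasurableSet B2 := isClosed_closedBall.measurableSet
  have hνf : IsFiniteMeasure (μ.restrict B) := ⟨by
    rw [Measure.restrict_apply_univ]; exact dim_lt hμ u ρ⟩
  set κ := CK / A with hκ
  have hκ0 : 0 < κ := by positivity
  have hKr : ∀ x w : E n, ‖Kr ψ A (R x) w‖ ≤ κ * (1 + ‖w‖) ^ (-kap n) := fun x w =>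
    (hK A (R x) (R x) hA (hR.2 x).1 (hR.2 x).2 (hR.2 x).1 (hR.2 x).2 w).1
  have hKb : ∀ x w : E n, ‖Kr ψ A (R x) w‖ ≤ κ := fun x w => by
    refine (hKr x w).trans ?_
    have : (1 + ‖w‖) ^ (-kap n) ≤ 1 :=
      Real.rpow_le_one_of_one_le_of_nonpos (by linarith [norm_nonneg w]) (by linarith)
    calc κ * (1 + ‖w‖) ^ (-kap n) ≤ κ * 1 := by gcongr
      _ = κ := mul_one _
  have hfi : Integrable f := int_of_loc hf hfs p hp1.le hfp
  set F : E n → ℂ := fun x => Tp ψ A (R x) f x with hF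
  have hFm : Measurable F := F_meas hψ A hR.1 hf
  set MF := κ * ∫ y, ‖f y‖ with hMF
  have hFb : ∀ x, ‖F x‖ ≤ MF := by
    intro x
    rw [hMF, ← integral_const_mul]
    refine norm_integral_le_of_norm_le (hfi.norm.const_mul κ) (Eventually.of_forall fun y => ?_)
    rw [norm_mul]
    exact mul_le_mul_of_nonneg_right (hKb x _) (norm_nonneg _)
  set g : E n → ℂ := B.indicator fun x => (starRingEnd ℂ) (F x) with hg
  have hgm : Measurable g := (Complex.continuous_conj.measurable.comp hFm).indicator hBm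
  have hMF0 : 0 ≤ MF := (norm_nonneg _).trans (hFb u)
  have hgb : ∀ x, ‖g x‖ ≤ MF := by
    intro x
    by_cases hx : x ∈ B
    · rw [hg, indicator_of_mem hx, RCLike.norm_conj]; exact hFb x
    · rw [hg, indicator_of_notMem hx, norm_zero]; exact hMF0
  have hgs : ∀ x, x ∉ B → g x = 0 := fun x hx => by rw [hg, indicator_of_notMem hx]
  set G := ∫⁻ x in B, ‖F x‖ₑ ^ (2 : ℝ) ∂μ with hG
  have hgG : ∫⁻ x, ‖g x‖ₑ ^ (2 : ℝ) ∂μ = G := by
    rw [hG, ← lintegral_indicator hBm]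
    refine lintegral_congr fun x => ?_
    by_cases hx : x ∈ B
    · rw [hg, indicator_of_mem hx, indicator_of_mem hx, ← ofReal_norm, RCLike.norm_conj,
        ofReal_norm]
    · rw [hg, indicator_of_notMem hx, indicator_of_notMem hx, enorm_zero,
        ENNReal.zero_rpow_of_pos (by norm_num)]
  have hGt : G ≠ ∞ := by
    refine (lt_of_le_of_lt (lintegral_mono (g := fun _ => ENNReal.ofReal MF ^ (2 : ℝ))
      fun x => ?_) ?_).ne
    · rw [← ofReal_norm]
      exact ENNReal.rpow_le_rpow (ENNReal.ofReal_le_ofReal (hFb x)) (by norm_num)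
    · rw [lintegral_const]
      exact ENNReal.mul_lt_top (ENNReal.rpow_lt_top_of_nonneg (by norm_num)
        ENNReal.ofReal_ne_top) (measure_lt_top _ _)
  -- the dual function
  set h : E n → ℂ := fun y => ∫ x, Kr ψ A (R x) (x - y) * g x ∂(μ.restrict B) with hh
  have hdual : ∫ x, F x * g x ∂(μ.restrict B) = ∫ y, f y * h y :=
    dual hψ hR hKb hfi hf hgm hgb (μ.restrict B)
  have hhF : h = 𝓕 (Hd ψ A R g μ) := by
    funext y
    rw [← Hd_restrict hgs μ, four_Hd hψ hA0 hR hgm hgb]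
  have hEb : ∫⁻ ξ, ‖Hd ψ A R g μ ξ‖ₑ ^ (2 : ℝ) ≤
      ENNReal.ofReal (CE / A * ρ ^ (α - kap n + ε)) * G := by
    have := hE μ hμ A hA R hR u ρ hρ g hgm ⟨MF, hgb⟩ hgs
    rw [show (2 : ℝ) / (2 - 1) = 2 by norm_num, show (2 : ℝ) * (2 - 1) / 2 = 1 by norm_num,
      ENNReal.rpow_one, hgG, show 2 * α / 2 = α by ring,
      max_eq_left (by linarith : (0 : ℝ) ≤ α - kap n)] at this
    exact this
  have hHm : Measurable (Hd ψ A R g μ) := by
    rw [← Hd_restrict hgs μ]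
    exact Hd_meas hψ A hR.1 hgm _
  have hHt : ∫⁻ ξ, ‖Hd ψ A R g μ ξ‖ₑ ^ (2 : ℝ) ≠ ∞ :=
    (hEb.trans_lt (ENNReal.mul_lt_top ENNReal.ofReal_lt_top (lt_top_iff_ne_top.2 hGt))).ne
  have hHi : Integrable (Hd ψ A R g μ) :=
    int_of_loc hHm (fun ξ hξ => Hd_far hψ hA0 hR g μ ξ hξ) 2 (by norm_num) hHt
  have hH2 : MemLp (Hd ψ A R g μ) 2 := memLp_two hHm hHt
  have hhm : Measurable h := by rw [hhF]; exact (four_cont hHi).measurable
  have hh2 : ∫⁻ y, ‖h y‖ₑ ^ (2 : ℝ) ≤ ENNReal.ofReal (CE / A * ρ ^ (α - kap n + ε)) * G := by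
    rw [hhF, planch hHi hH2]; exact hEb
  -- the bound for the dual function
  have hsup : ∀ y ∈ B2, ‖h y‖ₑ ^ (2 : ℝ) ≤ ENNReal.ofReal (κ ^ 2 * (CL * ρ ^ ε)) * G := by
    intro y hy
    have h1 : ‖h y‖ₑ ≤ ∫⁻ x, ‖Kr ψ A (R x) (x - y)‖ₑ * ‖g x‖ₑ ∂(μ.restrict B) := by
      refine (enorm_integral_le_lintegral_enorm _).trans (le_of_eq ?_)
      refine lintegral_congr fun x => ?_
      rw [enorm_mul]
    have hkm : Measurable fun x : E n => ‖Kr ψ A (R x) (x - y)‖ₑ :=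
      ((Kr_joint hψ A hR.1).comp (measurable_id.prodMk measurable_const)).enorm
    have h2 := ENNReal.lintegral_mul_le_Lp_mul_Lq (μ.restrict B)
      (p := 2) (q := 2) Real.HolderConjugate.two_two hkm.aemeasurable hgm.enorm.aemeasurable
    have h3 : ∫⁻ x, ‖Kr ψ A (R x) (x - y)‖ₑ ^ (2 : ℝ) ∂(μ.restrict B) ≤
        ENNReal.ofReal (κ ^ 2 * (CL * ρ ^ ε)) := by
      have h4 : ∀ x : E n, ‖Kr ψ A (R x) (x - y)‖ₑ ^ (2 : ℝ) ≤
          ENNReal.ofReal (κ ^ 2) * ENNReal.ofReal ((1 + ‖x - y‖) ^ (-α)) := by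
        intro x
        rw [← ENNReal.ofReal_mul (by positivity), ← ofReal_norm,
          ENNReal.ofReal_rpow_of_nonneg (norm_nonneg _) (by norm_num)]
        refine ENNReal.ofReal_le_ofReal ?_
        have h5 := hKr x (x - y)
        have h6 : ((1 + ‖x - y‖) ^ (-kap n)) ^ 2 ≤ (1 + ‖x - y‖) ^ (-α) := by
          rw [← Real.rpow_natCast, ← Real.rpow_mul (by positivity)]
          refine Real.rpow_le_rpow_of_exponent_le (by linarith [norm_nonneg (x - y)]) ?_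
          unfold kap
          push_cast
          linarith
        rw [show (2 : ℝ) = ((2 : ℕ) : ℝ) by norm_num, Real.rpow_natCast]
        calc ‖Kr ψ A (R x) (x - y)‖ ^ 2 ≤ (κ * (1 + ‖x - y‖) ^ (-kap n)) ^ 2 := by gcongr
          _ = κ ^ 2 * ((1 + ‖x - y‖) ^ (-kap n)) ^ 2 := by ring
          _ ≤ κ ^ 2 * (1 + ‖x - y‖) ^ (-α) := by gcongr
      refine (lintegral_mono h4).trans ?_
      rw [lintegral_const_mul' _ _ ENNReal.ofReal_ne_top, ENNReal.ofReal_mul (by positivity)]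
      exact mul_le_mul_right (hL μ hμ u y ρ hρ hy) _
    have h7 : ∫⁻ x, ‖g x‖ₑ ^ (2 : ℝ) ∂(μ.restrict B) ≤ G := by
      rw [← hgG]; exact setLIntegral_le_lintegral _ _
    have h8 : ‖h y‖ₑ ≤ (ENNReal.ofReal (κ ^ 2 * (CL * ρ ^ ε)) * G) ^ (1 / (2 : ℝ)) := by
      refine h1.trans (h2.trans ?_)
      rw [ENNReal.mul_rpow_of_nonneg _ _ (by norm_num)]
      gcongr
    have h9 := ENNReal.rpow_le_rpow h8 (by norm_num : (0 : ℝ) ≤ 2)
    rwa [← ENNReal.rpow_mul, show (1 : ℝ) / 2 * 2 = 1 by norm_num, ENNReal.rpow_one] at h9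
  -- the pairing
  have hpair : G ≤ ∫⁻ y, ‖f y‖ₑ * B2.indicator (fun y => ‖h y‖ₑ) y := by
    have h1 : ∫ x, F x * g x ∂(μ.restrict B) = ((∫ x in B, ‖F x‖ ^ 2 ∂μ : ℝ) : ℂ) := by
      rw [← integral_complex_ofReal]
      refine setIntegral_congr_fun hBm fun x hx => ?_
      simp only [hg, indicator_of_mem hx]
      rw [Complex.mul_conj, Complex.normSq_eq_norm_sq]
    have h2 : G = ENNReal.ofReal (∫ x in B, ‖F x‖ ^ 2 ∂μ) := by
      have hFi : Integrable (fun x => ‖F x‖ ^ 2) (μ.restrict B) := by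
        refine Integrable.of_bound (hFm.norm.pow_const 2).aestronglyMeasurable (MF ^ 2)
          (Eventually.of_forall fun x => ?_)
        rw [Real.norm_of_nonneg (by positivity)]
        exact pow_le_pow_left₀ (norm_nonneg _) (hFb x) 2
      rw [ofReal_integral_eq_lintegral_ofReal hFi (Eventually.of_forall fun x => by positivity)]
      refine lintegral_congr fun x => ?_
      rw [← ofReal_norm, ENNReal.ofReal_rpow_of_nonneg (norm_nonneg _) (by norm_num)]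
      congr 1
      exact_mod_cast Real.rpow_natCast _ 2
    have h3 : G = ‖∫ x, F x * g x ∂(μ.restrict B)‖ₑ := by
      rw [h1, h2, ← ofReal_norm, Complex.norm_real, Real.norm_of_nonneg]
      exact integral_nonneg fun x => by positivity
    rw [h3, hdual]
    refine (enorm_integral_le_lintegral_enorm _).trans (lintegral_mono fun y => ?_)
    rw [enorm_mul]
    by_cases hy : y ∈ B2
    · rw [indicator_of_mem hy]
    · rw [hfs y hy, enorm_zero, zero_mul]; exact zero_le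
  have hq1 : 2 < p / (p - 1) := by
    rw [lt_div_iff₀ (by linarith)]; linarith
  have hpq : p.HolderConjugate (p / (p - 1)) := by
    rw [Real.holderConjugate_iff]
    refine ⟨hp1, ?_⟩
    field_simp
    ring
  have hho := ENNReal.lintegral_mul_le_Lp_mul_Lq (volume : Measure (E n)) hpq
    hf.enorm.aemeasurable (hhm.enorm.indicator hB2m).aemeasurable
  have hhq : ∫⁻ y, (B2.indicator (fun y => ‖h y‖ₑ) y) ^ (p / (p - 1)) ≤
      (ENNReal.ofReal (κ ^ 2 * (CL * ρ ^ ε)) * G) ^ ((p / (p - 1) - 2) / 2) *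
        (ENNReal.ofReal (CE / A * ρ ^ (α - kap n + ε)) * G) := by
    have h1 : ∀ y, (B2.indicator (fun y => ‖h y‖ₑ) y) ^ (p / (p - 1)) ≤
        (ENNReal.ofReal (κ ^ 2 * (CL * ρ ^ ε)) * G) ^ ((p / (p - 1) - 2) / 2) *
          ‖h y‖ₑ ^ (2 : ℝ) := by
      intro y
      by_cases hy : y ∈ B2
      · rw [indicator_of_mem hy]
        have e1 : ‖h y‖ₑ ^ (p / (p - 1)) =
            (‖h y‖ₑ ^ (2 : ℝ)) ^ ((p / (p - 1) - 2) / 2) * ‖h y‖ₑ ^ (2 : ℝ) := by
          rw [← ENNReal.rpow_mul, ← ENNReal.rpow_add_of_nonneg _ _ (by linarith) (by norm_num)]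
          congr 1; ring
        rw [e1]
        exact mul_le_mul_left (ENNReal.rpow_le_rpow (hsup y hy) (by linarith)) _
      · rw [indicator_of_notMem hy, ENNReal.zero_rpow_of_pos (by linarith)]; exact zero_le
    refine (lintegral_mono h1).trans ?_
    rw [lintegral_const_mul _ (hhm.enorm.pow_const _)]
    exact mul_le_mul_right hh2 _
  have hGe := fin_alg hGt hp1 hp2 (hpair.trans (hho.trans (mul_le_mul_right
    (ENNReal.rpow_le_rpow hhq (by rw [one_div]; exact inv_nonneg.2 (by linarith))) _)))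
  -- Jensen
  have hj := ENNReal.lintegral_mul_norm_pow_le (μ := μ.restrict B)
    (f := (1 : E n → ℝ≥0∞)) (g := fun x => ‖F x‖ₑ ^ (2 : ℝ))
    measurable_one.aemeasurable (hFm.enorm.pow_const _).aemeasurable
    (p := 1 - p / 2) (q := p / 2) (by linarith) (by positivity) (by ring)
  have hj2 : ∫⁻ x in B, ‖F x‖ₑ ^ p ∂μ ≤ μ B ^ (1 - p / 2) * G ^ (p / 2) := by
    refine le_trans (le_of_eq (lintegral_congr fun x => ?_)) (hj.trans (le_of_eq ?_))
    · simp only [Pi.one_apply, ENNReal.one_rpow, one_mul]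
      rw [← ENNReal.rpow_mul, mul_div_cancel₀ _ (two_ne_zero)]
    · simp only [Pi.one_apply, lintegral_const, one_mul, Measure.restrict_apply_univ]
      rfl
  refine hj2.trans ?_
  have hmB : μ B ^ (1 - p / 2) ≤ ENNReal.ofReal ((ρ ^ α) ^ (1 - p / 2)) := by
    rw [← ENNReal.ofReal_rpow_of_nonneg (by positivity) (by linarith)]
    exact ENNReal.rpow_le_rpow (hμ u ρ hρ) (by linarith)
  refine (mul_le_mul' hmB hGe).trans ?_
  rw [ENNReal.ofReal_rpow_of_nonneg (by positivity) (by linarith),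
    ENNReal.ofReal_rpow_of_nonneg (by positivity) (by linarith),
    ← ENNReal.ofReal_mul (by positivity), mul_comm (∫⁻ x, ‖f x‖ₑ ^ p), ← mul_assoc,
    ← ENNReal.ofReal_mul (by positivity)]
  refine mul_le_mul_left (ENNReal.ofReal_le_ofReal ?_) _
  exact fin_num hCK hCL hCE hA0 hρ hp1 hp2 hε

end Pool.Agent.Y948.FB
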